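import Pool.Agent.NTW.StmtsA

/-!
# NTW, row PBL: limits of pair boxes
-/

set_option autoImplicit false

open Matrix Filter Topology

namespace Pool.Agent.NTW.H49

open Pool.Agent.PFS Pool.Agent.PFJ Pool.Agent.NTS Pool.Agent.NTW

variable {n K : ℕ}

theorem sum_rst (w : Fin K → V n) {i j : Fin K} (hij : i ≠ j) :
    ∑ l, w l = (w i + w j) + rst w i j := by
  have h1 : w i + ∑ l ∈ Finset.univ.erase i, w l = ∑ l, w l :=
    Finset.add_sum_erase _ _ (Finset.mem_univ i)
  have h2 : w j + ∑ l ∈ (Finset.univ.erase i).erase j, w l = ∑ l ∈ Finset.univ.erase i, w l :=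
    Finset.add_sum_erase _ _ (Finset.mem_erase.mpr ⟨hij.symm, Finset.mem_univ j⟩)
  rw [← h1, ← h2, add_assoc]
  rfl

theorem pbl : PblStmt := by
  intro n C h K x w i j L L' hij hx hw hlim hPB hL
  have hleft : w i ∈ L' :=
    hL.2 id (fun m => x m i) (w i) strictMono_id (fun m => (hPB m).left) (hlim i)
  have hright : w j ∈ L' :=
    hL.2 id (fun m => x m j) (w j) strictMono_id (fun m => (hPB m).right) (hlim j)
  refine ⟨hleft, hright, fun v hv hvc => ?_⟩
  obtain ⟨y, hyL, hylim⟩ := hL.1 v hv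
  have hsumC : ∑ l, w l ∈ C := by
    have := hw.pos (fun _ => 1) (fun _ => one_pos)
    simpa using this
  have hrst : Tendsto (fun m => rst (x m) i j) atTop (𝓝 (rst w i j)) :=
    tendsto_finsetSum _ fun l _ => hlim l
  have hsum : Tendsto (fun m => ∑ l, x m l) atTop (𝓝 (∑ l, w l)) :=
    tendsto_finsetSum _ fun l _ => hlim l
  have key : ∀ ε : ℝ, 0 < ε → v + ε • (w i + w j) ∈ closure C := by
    intro ε hε
    have h1 : v + rst w i j + ε • ∑ l, w l ∈ C := h.cl_add' hvc (h.smul _ hsumC ε hε)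
    have h2 : Tendsto (fun m => y m + rst (x m) i j + ε • ∑ l, x m l) atTop
        (𝓝 (v + rst w i j + ε • ∑ l, w l)) := (hylim.add hrst).add (hsum.const_smul ε)
    have h3 : Tendsto (fun m => y m + ε • (x m i + x m j)) atTop
        (𝓝 (v + ε • (w i + w j))) := hylim.add (((hlim i).add (hlim j)).const_smul ε)
    refine isClosed_closure.mem_of_tendsto h3 ?_
    filter_upwards [h2.eventually (h.isOpen.mem_nhds h1)] with m hm
    have hm' : y m + rst (x m) i j + ε • ∑ l, x m l ∈ C := hm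
    rw [sum_rst (x m) hij] at hm'
    have h1ε : 0 < 1 + ε := by linarith
    have e : (1 + ε)⁻¹ • (y m + rst (x m) i j + ε • (x m i + x m j + rst (x m) i j))
        = (1 + ε)⁻¹ • (y m + ε • (x m i + x m j)) + rst (x m) i j := by
      have hne : 1 + ε ≠ 0 := h1ε.ne'
      match_scalars <;> field_simp
    have h4 := h.cl_smul (subset_closure hm') (t := (1 + ε)⁻¹) (inv_pos.mpr h1ε).le
    rw [e] at h4
    have hmem : (1 + ε)⁻¹ • (y m + ε • (x m i + x m j)) ∈ L m :=
      (L m).smul_mem _ ((L m).add_mem (hyL m)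
        ((L m).smul_mem _ ((L m).add_mem (hPB m).left (hPB m).right)))
    have h5 := (hPB m).box _ hmem h4
    rwa [h.cl_smul_iff (inv_pos.mpr h1ε)] at h5
  have hlim0 : Tendsto (fun m : ℕ => v + (1 / ((m : ℝ) + 1)) • (w i + w j)) atTop
      (𝓝 (v + (0 : ℝ) • (w i + w j))) :=
    tendsto_const_nhds.add (tendsto_one_div_add_atTop_nhds_zero_nat.smul_const _)
  rw [zero_smul, add_zero] at hlim0
  exact isClosed_closure.mem_of_tendsto hlim0
    (Eventually.of_forall fun m => key _ (by positivity))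

end Pool.Agent.NTW.H49
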